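import Pool.Agent.Lib.D2_h13.PolDefs
import Pool.Agent.Lib.LU3.TReach
import Pool.Agent.Lib.LU1_h15.ML

/-!
# DefectTwo, RowPOL: the end of the polygon block (R14)

`rowFin : RowFin k Ω v r`: from cleaning (`RowClean`), the T-step of a cleaned element (`RowT`) and
the subtraction of the constant (`RowSub`) to `RowPOL`.
-/

set_option autoImplicit false

open Polynomial

namespace Pool.Agent.D2h19

open Pool.Agent.H15JM (RVal)
open Pool.Agent.LU1 Pool.Agent.LU3 Pool.Agent.D2h13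

universe u

variable {k Ω : Type u} [Field k] [Field Ω] [Algebra k Ω] {v : RVal Ω} {r : ℕ}

/-- A subgroup of a finitely generated subgroup of `ℝ` is finitely generated. -/
theorem fg_of_le {G H : AddSubgroup ℝ} (h : G ≤ H) (hH : H.FG) : G.FG := by
  have h1 : (AddSubgroup.toIntSubmodule H).FG := by
    rw [Submodule.fg_iff_addSubgroup_fg, AddSubgroup.toIntSubmodule_toAddSubgroup]
    exact hH
  have : IsNoetherian ℤ (AddSubgroup.toIntSubmodule H) := isNoetherian_of_fg_of_noetherian _ h1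
  have h2 : (AddSubgroup.toIntSubmodule G).FG :=
    Submodule.FG.of_le_of_isNoetherian (T := AddSubgroup.toIntSubmodule H) h
  rw [Submodule.fg_iff_addSubgroup_fg, AddSubgroup.toIntSubmodule_toAddSubgroup] at h2
  exact h2

/-- `κ` is `h` times an element of the group of the frame. -/
def InH (h : ℕ) (S : BF k v) (κ : ℝ) : Prop := ∃ γ ∈ S.Γ, κ = (h : ℝ) * γ

/-- A state: a value of `H` with visible content `κ` and visible order `D`. -/
def St (h : ℕ) (H : Polynomial Ω) (S₁ S : BF k v) (κ : ℝ) (D : ℕ) : Prop :=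
  TReach S₁ S ∧ ∃ θ ∈ S.R, VRep h S (H.eval θ) κ D

/-- The conclusion of `RowPOL`. -/
def Suc (h : ℕ) (H : Polynomial Ω) (S₁ : BF k v) : Prop :=
  ∃ S : BF k v, TReach S₁ S ∧ ∃ θ ∈ S.R, ∃ γ ∈ S.Γ, ∃ D, 0 < D ∧ D < h ∧
    S.Rep (H.eval θ) ((h : ℝ) * γ) D

/-- What one T-step does with a state. -/
def StepOK (h : ℕ) (H : Polynomial Ω) (S₁ : BF k v) : Prop :=
  ∀ (S S' : BF k v) (q : ℕ) (c : k) (s : ℝ → ℤ → ℤ), IsTStep S S' q c s →
    ∀ (κ : ℝ) (D : ℕ), St h H S₁ S κ D →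
      ∃ (lam : ℝ) (D' : ℕ), St h H S₁ S' lam D' ∧ κ ≤ lam ∧ lam ≤ κ + D * v S.y ∧
        (¬ InH h S' lam → q * D' ≤ D) ∧ (InH h S' lam → D' / h ≤ D / h / q)

theorem hloc {L₀ : IntermediateField k Ω} {S₁ S : BF k v} {H : Polynomial Ω} {h : ℕ} {σ : ℝ}
    (hP : HPol k v L₀ S₁ H h σ) (hS : TReach S₁ S) : HLoc S H h σ where
  mem j := hS.ext.le (hP.mem j)
  low := hP.low S hS
  unit := hP.unit S hS
  high := hP.high S hS
  val θ hθ := ⟨(hP.val S hS θ hθ).1, (hP.val S hS θ hθ).2.1⟩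

theorem Γ_eq_of_one {S S' : BF k v} {c : k} {s : ℝ → ℤ → ℤ} (h : IsTStep S S' 1 c s) :
    S'.Γ = S.Γ := by
  rw [h.Γ_eq, sup_eq_left]
  refine AddSubgroup.zmultiples_le_of_mem ?_
  have h1 := h.q_mem
  simpa using h1

theorem exists_reach {p : ℕ} (hp : p.Prime) [CharP k p] (hc : Ctx k v r)
    {L₀ : IntermediateField k Ω} {S : BF k v} (hF : FracIs S.R L₀) {g : Ω} (hg : g ∈ L₀)
    (hg0 : g ≠ 0) : ∃ S'' : BF k v, Reach S S'' ∧ v g ∈ S''.Γ := by
  obtain ⟨S'', h1, h2⟩ := ML p hp hc S L₀ hF {g} (by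
    intro f hf
    rw [Finset.mem_singleton.1 hf]
    exact ⟨hg, hg0⟩)
  exact ⟨S'', h1, (h2 g (Finset.mem_singleton_self g)).2.1⟩

theorem exists_new {L₀ : IntermediateField k Ω} (hn : ¬ (vgp v L₀).FG) (S : BF k v) :
    ∃ g ∈ L₀, g ≠ 0 ∧ v g ∉ S.Γ := by
  by_contra hcon
  push Not at hcon
  refine hn (fg_of_le (H := S.Γ) ?_ S.fg)
  rintro γ ⟨g, hg, hg0, rfl⟩
  exact hcon g hg hg0

section Main

variable {p : ℕ} {t h : ℕ} {L₀ : IntermediateField k Ω} {S₁ : BF k v} {H : Polynomial Ω} {σ : ℝ}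

theorem stepOK (hp : p.Prime) (hcp : CharP k p) (hk : IsAlgClosed k) (hc : Ctx k v r)
    (hC : RowClean k Ω v r) (hT : RowT k Ω v r) (ht : 0 < t) (hh : h = p ^ t)
    (hP : HPol k v L₀ S₁ H h σ) : StepOK h H S₁ := by
  rintro S S' q c s hst κ D ⟨hS, θ, hθ, hV⟩
  obtain ⟨θ', hθ', hkeep, lam, I, e, hcl, hb⟩ :=
    hC p hp hcp hk hc t ht h hh S S' q c s hst H σ (hloc hP hS) θ hθ
  obtain ⟨D', hV', hq⟩ := hT p hp hcp hk hc t ht h hh S S' q c s hst _ lam I e hcl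
  obtain ⟨h2, h3⟩ := hb κ D (hkeep κ D hV)
  obtain ⟨h4, h5⟩ := hq D fun l hl => (h3 l hl).2
  refine ⟨lam, D', ⟨hS.trans (TReach.of_tstep ⟨q, c, s, hst⟩), θ', hst.ext.le hθ', hV'⟩,
    ?_, h2, ?_, ?_⟩
  · obtain ⟨l, hl, -⟩ := hcl.vis
    have h6 := (h3 l hl).1
    have h7 : 0 ≤ (l : ℝ) * v S.y := mul_nonneg (Nat.cast_nonneg _) S.y_pos.le
    linarith
  · intro h6
    exact h4 fun γ hγ h7 => h6 ⟨γ, hγ, h7⟩
  · rintro ⟨γ, hγ, h7⟩
    exact h5 ⟨γ, hγ, h7⟩

theorem exists_first (hp : p.Prime) (hcp : CharP k p) (hk : IsAlgClosed k) (hc : Ctx k v r)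
    (hC : RowClean k Ω v r) (hT : RowT k Ω v r) (ht : 0 < t) (hh : h = p ^ t)
    (hP : HPol k v L₀ S₁ H h σ) : ∃ (S : BF k v) (κ : ℝ) (D : ℕ), St h H S₁ S κ D := by
  obtain ⟨S', q, c, s, hst, -, -⟩ := S₁.exists_tstep hc ∅ (by simp) 1 (Or.inl rfl)
  obtain ⟨θ', hθ', -, lam, I, e, hcl, -⟩ :=
    hC p hp hcp hk hc t ht h hh S₁ S' q c s hst H σ (hloc hP (TReach.refl S₁)) 0 S₁.R.zero_mem
  obtain ⟨D', hV', -⟩ := hT p hp hcp hk hc t ht h hh S₁ S' q c s hst _ lam I e hcl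
  exact ⟨S', lam, D', TReach.of_tstep ⟨q, c, s, hst⟩, θ', hst.ext.le hθ', hV'⟩

/-- The quotient `D / h` can be brought to zero. -/
theorem exists_lt (hp : p.Prime) [CharP k p] (hc : Ctx k v r) (hstep : StepOK h H S₁)
    (hn : ¬ (vgp v L₀).FG) (hF : FracIs S₁.R L₀) (n : ℕ) :
    ∀ (S : BF k v) (κ : ℝ) (D : ℕ), St h H S₁ S κ D → D / h ≤ n →
      ∃ (S' : BF k v) (κ' : ℝ) (D' : ℕ), St h H S₁ S' κ' D' ∧ D' / h = 0 := by
  induction n with
  | zero =>
    intro S κ D hS hD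
    exact ⟨S, κ, D, hS, Nat.le_zero.1 hD⟩
  | succ n ih =>
    intro S κ D hS hD
    obtain ⟨g, hg, hg0, hgΓ⟩ := exists_new hn S
    obtain ⟨S'', hr, hΓ⟩ := exists_reach hp hc (hS.1.fracIs hF) hg hg0
    have key : ∀ T : BF k v, Reach S T →
        (∃ (S' : BF k v) (κ' : ℝ) (D' : ℕ), St h H S₁ S' κ' D' ∧ D' / h = 0) ∨
        (∃ (κ' : ℝ) (D' : ℕ), St h H S₁ T κ' D' ∧ D' / h ≤ n + 1 ∧ T.Γ = S.Γ) := by
      intro T hT
      induction hT with
      | refl => exact Or.inr ⟨κ, D, hS, hD, rfl⟩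
      | @tail X Y _ h2 ih2 =>
        rcases ih2 with h3 | ⟨κ', D', h3, h4, h5⟩
        · exact Or.inl h3
        obtain ⟨q, c, s, hst⟩ := h2
        obtain ⟨lam, D'', h6, -, -, h7, h8⟩ := hstep _ _ q c s hst κ' D' h3
        have h9 : D'' / h ≤ D' / h / q := by
          by_cases hin : InH h Y lam
          · exact h8 hin
          · have h10 := h7 hin
            rw [Nat.div_div_eq_div_mul, mul_comm, ← Nat.div_div_eq_div_mul]
            refine Nat.div_le_div_right ?_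
            rw [Nat.le_div_iff_mul_le hst.q_pos, mul_comm]
            exact h10
        rcases Nat.lt_or_ge 1 q with hq | hq
        · left
          refine ih _ lam D'' h6 ?_
          have h10 : D' / h / q ≤ (n + 1) / 2 :=
            (Nat.div_le_div_right h4).trans (Nat.div_le_div_left hq (by norm_num))
          omega
        · have hq1 : q = 1 := le_antisymm hq hst.q_pos
          subst hq1
          right
          refine ⟨lam, D'', h6, ?_, (Γ_eq_of_one hst).trans h5⟩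
          rw [Nat.div_one] at h9
          exact h9.trans h4
    rcases key S'' hr with h3 | ⟨κ', D', -, -, h5⟩
    · exact h3
    · rw [h5] at hΓ
      exact absurd hΓ hgΓ

theorem suc_of_in (hp : p.Prime) (hcp : CharP k p) (hk : IsAlgClosed k) (hc : Ctx k v r)
    (hSub : RowSub k Ω v r) (ht : 0 < t) (hh : h = p ^ t) (hP : HPol k v L₀ S₁ H h σ)
    {S : BF k v} {κ : ℝ} {D : ℕ} (hS : St h H S₁ S κ D) (hD : D / h = 0) (hin : InH h S κ) :
    Suc h H S₁ := by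
  obtain ⟨hr, θ, hθ, hV⟩ := hS
  obtain ⟨γ, hγ, rfl⟩ := hin
  have h0 : 0 < h := by rw [hh]; exact pow_pos hp.pos t
  have hnd : ¬ h ∣ D := by
    obtain ⟨-, u, -, δ, -, -, a, -, g, -, -, -, h2⟩ := hV
    exact h2 ⟨γ, hγ, rfl⟩
  have hDlt : D < h := (Nat.div_eq_zero_iff_lt h0).1 hD
  have hD0 : 0 < D := Nat.pos_of_ne_zero (by rintro rfl; exact hnd (dvd_zero h))
  obtain ⟨θ', hθ', hR⟩ :=
    hSub p hp hcp hk hc t ht h hh S H σ (hloc hP hr) θ hθ γ hγ D hD0 hDlt hV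
  exact ⟨S, hr, θ', hθ', γ, hγ, D, hD0, hDlt, hR⟩

theorem suc_zero (hp : p.Prime) (hcp : CharP k p) (hk : IsAlgClosed k) (hc : Ctx k v r)
    (hSub : RowSub k Ω v r) (ht : 0 < t) (hh : h = p ^ t) (hP : HPol k v L₀ S₁ H h σ)
    (hstep : StepOK h H S₁) {S : BF k v} {κ : ℝ} (hS : St h H S₁ S κ 0) (hnin : ¬ InH h S κ) :
    Suc h H S₁ := by
  have h0 : 0 < h := by rw [hh]; exact pow_pos hp.pos t
  obtain ⟨hr, θ, hθ, hV⟩ := hS
  have hval : v (H.eval θ) = κ := by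
    obtain ⟨hκ, u, hu, δ, hδ, hδ0, a, ha, g, hg, hfe, h1, -⟩ := hV
    have hg0 : g = 0 := h1 fun γ hγ h3 => hnin ⟨γ, hγ, h3⟩
    have hrep : S.Rep (H.eval θ) κ 0 := ⟨hκ, u, hu, δ, hδ, hδ0, a, ha, by
      rw [hfe, hg0, zero_pow h0.ne', zero_add]⟩
    exact hrep.val_zero.2.1
  obtain ⟨-, -, δ, ⟨g, hg, hg0, hgv⟩, hδ⟩ := hP.val S hr θ hθ
  obtain ⟨S'', hreach, hΓ⟩ := exists_reach hp hc (hr.fracIs hP.frac) hg hg0
  have key : ∀ T : BF k v, Reach S T → Suc h H S₁ ∨ (St h H S₁ T κ 0 ∧ ¬ InH h T κ) := by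
    intro T hT
    induction hT with
    | refl => exact Or.inr ⟨⟨hr, θ, hθ, hV⟩, hnin⟩
    | @tail X Y _ h2 ih =>
      rcases ih with h3 | ⟨h3, h4⟩
      · exact Or.inl h3
      obtain ⟨q, c, s, hst⟩ := h2
      obtain ⟨lam, D'', h6, h6a, h6b, h7, h8⟩ := hstep _ _ q c s hst κ 0 h3
      have hlam : lam = κ := le_antisymm (by simpa using h6b) h6a
      subst hlam
      by_cases hin : InH h Y lam
      · left
        exact suc_of_in hp hcp hk hc hSub ht hh hP h6 (by simpa using h8 hin) hin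
      · right
        have h9 := h7 hin
        have hq := hst.q_pos
        have h10 : D'' = 0 := by
          rcases Nat.eq_zero_or_pos D'' with h11 | h11
          · exact h11
          · have := Nat.mul_pos hq h11
            omega
        subst h10
        exact ⟨h6, hin⟩
  rcases key S'' hreach with h3 | ⟨-, h4⟩
  · exact h3
  · exact absurd ⟨v g, hΓ, by rw [← hval, hδ, hgv]⟩ h4

theorem suc_of_lt (hp : p.Prime) (hcp : CharP k p) (hk : IsAlgClosed k) (hc : Ctx k v r)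
    (hSub : RowSub k Ω v r) (ht : 0 < t) (hh : h = p ^ t) (hP : HPol k v L₀ S₁ H h σ)
    (hn : ¬ (vgp v L₀).FG) (hstep : StepOK h H S₁) (D : ℕ) :
    ∀ (S : BF k v) (κ : ℝ), St h H S₁ S κ D → D / h = 0 → Suc h H S₁ := by
  induction D using Nat.strong_induction_on with
  | _ D ih =>
    intro S κ hS hD
    by_cases hin : InH h S κ
    · exact suc_of_in hp hcp hk hc hSub ht hh hP hS hD hin
    rcases Nat.eq_zero_or_pos D with rfl | hD0
    · exact suc_zero hp hcp hk hc hSub ht hh hP hstep hS hin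
    obtain ⟨g, hg, hg0, hgΓ⟩ := exists_new hn S
    obtain ⟨S'', hr, hΓ⟩ := exists_reach hp hc (hS.1.fracIs hP.frac) hg hg0
    have key : ∀ T : BF k v, Reach S T → Suc h H S₁ ∨
        (∃ (κ' : ℝ) (D' : ℕ), St h H S₁ T κ' D' ∧ D' ≤ D ∧ T.Γ = S.Γ) := by
      intro T hT
      induction hT with
      | refl => exact Or.inr ⟨κ, D, hS, le_rfl, rfl⟩
      | @tail X Y _ h2 ih2 =>
        rcases ih2 with h3 | ⟨κ', D', h3, h4, h5⟩
        · exact Or.inl h3
        obtain ⟨q, c, s, hst⟩ := h2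
        obtain ⟨lam, D'', h6, -, -, h7, h8⟩ := hstep _ _ q c s hst κ' D' h3
        have hD' : D' / h = 0 := Nat.le_zero.1 ((Nat.div_le_div_right h4).trans_eq hD)
        by_cases hin' : InH h Y lam
        · left
          refine suc_of_in hp hcp hk hc hSub ht hh hP h6 ?_ hin'
          have h9 := h8 hin'
          rw [hD', Nat.zero_div] at h9
          exact Nat.le_zero.1 h9
        · have h9 := h7 hin'
          rcases Nat.lt_or_ge 1 q with hq | hq
          · left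
            have h10 : 2 * D'' ≤ q * D'' := Nat.mul_le_mul_right _ hq
            have hlt : D'' < D := by omega
            exact ih D'' hlt _ lam h6
              (Nat.le_zero.1 ((Nat.div_le_div_right hlt.le).trans_eq hD))
          · have hq1 : q = 1 := le_antisymm hq hst.q_pos
            subst hq1
            right
            exact ⟨lam, D'', h6, by omega, (Γ_eq_of_one hst).trans h5⟩
    rcases key S'' hr with h3 | ⟨κ', D', -, -, h5⟩
    · exact h3
    · rw [h5] at hΓ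
      exact absurd hΓ hgΓ

end Main

/-- R14: the end of the polygon block. -/
theorem rowFin : RowFin k Ω v r := by
  intro hC hT hSub p hp hcp hk hc L₀ S₁ H t σ ht hn hP
  have hstep := stepOK hp hcp hk hc hC hT ht rfl hP
  obtain ⟨S, κ, D, hS⟩ := exists_first hp hcp hk hc hC hT ht rfl hP
  obtain ⟨S', κ', D', hS', hD'⟩ := exists_lt hp hc hstep hn hP.frac (D / p ^ t) S κ D hS le_rfl
  exact suc_of_lt hp hcp hk hc hSub ht rfl hP hn hstep D' S' κ' hS' hD'

end Pool.Agent.D2h19
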